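import Pool.Agent.Helper79.AL.St2

set_option autoImplicit false

namespace Pool.Agent.Helper10.AL

open Matrix ComplexConjugate Pool.Agent.Helper94.YG
open Pool.Agent.Helper94.YF hiding StORB
open Pool.Agent.Helper89.OS Pool.Agent.Helper79.AL

/-- AL module ORT -/
theorem hORT : StORT := by
  intro L p q b b' hp hq hpq hb hb'
  have hc : Nat.Coprime (p ^ 1) (q ^ 1) := by
    rw [pow_one, pow_one]
    exact (Nat.coprime_primes hp hq).2 hpq
  obtain ⟨u, v, huv⟩ := Nat.isCoprime_iff_coprime.2 hc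
  have huv' : (u : ZMod L) * ((p ^ 1 : ℕ) : ZMod L) + (v : ZMod L) * ((q ^ 1 : ℕ) : ZMod L) = 1 := by
    have h := congrArg (Int.cast : ℤ → ZMod L) huv
    push_cast at h
    push_cast
    exact h
  have h1 := hb.ann
  have h2 := hb'.ann
  have h0 : b * b' = 0 := by
    calc b * b' = ((u : ZMod L) * ((p ^ 1 : ℕ) : ZMod L) + (v : ZMod L) * ((q ^ 1 : ℕ) : ZMod L)) *
          (b * b') := by rw [huv', one_mul]
      _ = (u : ZMod L) * (((p ^ 1 : ℕ) : ZMod L) * b) * b' +
          (v : ZMod L) * b * (((q ^ 1 : ℕ) : ZMod L) * b') := by ring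
      _ = 0 := by rw [h1, h2]; ring
  refine ⟨h0, fun w hw => ?_⟩
  calc (w - 1) * b = ((w - 1) * (1 - b')) * b + (w - 1) * (b * b') := by ring
    _ = 0 := by rw [hw, h0]; ring

end Pool.Agent.Helper10.AL
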